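import Pool.Agent.H32.N6W.Targets
import Pool.Agent.H34.N6.LibC
import Pool.Agent.H32.QC.TargetsL

/-!
# Board n6w_modules, row DSU: the completion is generated by the image of `e`
-/

set_option autoImplicit false

open Polynomial NumberField IsDedekindDomain Matrix Pool.Agent.H32.QC Pool.Agent.H34.N6
open Pool.Agent.H13.DEV Pool.Agent.H34.N6V Pool.Agent.H63.WT Pool.Agent.H32.N6W

namespace Pool.Agent.H86.N6W

namespace DSU

theorem closed_range {F₁ F₂ : Type} [NontriviallyNormedField F₁] [CompleteSpace F₁]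
    [NormedField F₂] (φ : F₁ →+* F₂) (hφ : Continuous φ) (θ : F₂) (R : F₁[X]) (hR : R.Monic)
    (hRθ : eval₂ φ θ R = 0) : IsClosed {y : F₂ | ∃ Q : F₁[X], eval₂ φ θ Q = y} := by
  let _ : Algebra F₁ F₂ := φ.toAlgebra
  have hcs : ContinuousSMul F₁ F₂ := by
    constructor
    have h1 : (fun p : F₁ × F₂ => p.1 • p.2) = fun p : F₁ × F₂ => φ p.1 * p.2 := by
      funext p
      rw [Algebra.smul_def]
      rfl
    rw [h1]
    exact (hφ.comp continuous_fst).mul continuous_snd
  have hint : IsIntegral F₁ θ := ⟨R, hR, hRθ⟩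
  have hfg : (Subalgebra.toSubmodule (Algebra.adjoin F₁ {θ})).FG := hint.fg_adjoin_singleton
  have hfd : FiniteDimensional F₁ (Subalgebra.toSubmodule (Algebra.adjoin F₁ {θ})) :=
    Module.Finite.iff_fg.mpr hfg
  have hcl := (Subalgebra.toSubmodule (Algebra.adjoin F₁ {θ})).closed_of_finiteDimensional
  have h2 : {y : F₂ | ∃ Q : F₁[X], eval₂ φ θ Q = y} =
      (Subalgebra.toSubmodule (Algebra.adjoin F₁ {θ}) : Set F₂) := by
    ext y
    rw [Subalgebra.coe_toSubmodule, SetLike.mem_coe, Algebra.adjoin_singleton_eq_range_aeval,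
      AlgHom.mem_range]
    exact Iff.rfl
  rw [h2]
  exact hcl

end DSU

theorem pf_DSU (hADC : T_ADC) : T_DSU := by
  intro k L _ _ _ _ _ P e v w hP hG hv
  subst hv
  obtain ⟨φ, hφc, hφ⟩ := exists_up (k := k) w
  refine ⟨φ, hφc, hφ, ?_⟩
  obtain ⟨hprop, hchar, x0, hx0⟩ := hADC k (w.under (𝓞 k))
  let nn : NontriviallyNormedField ((w.under (𝓞 k)).adicCompletion k) :=
    { (inferInstance : NormedField ((w.under (𝓞 k)).adicCompletion k)) with
      non_trivial := ⟨x0, hx0⟩ }
  have hcomp : CompleteSpace ((w.under (𝓞 k)).adicCompletion k) := inferInstance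
  have hroot : eval₂ φ (ic w e) (P.map (ic (w.under (𝓞 k)))) = 0 := by
    rw [eval₂_map]
    have h1 : φ.comp (ic (w.under (𝓞 k))) = (ic w).comp (algebraMap k L) := RingHom.ext hφ
    rw [h1, ← hom_eval₂, ← aeval_def, ← hG.mp, minpoly.aeval, map_zero]
  have hcl := DSU.closed_range φ hφc (ic w e) (P.map (ic (w.under (𝓞 k)))) (hP.map _) hroot
  have hsub : ∀ x : L, ∃ Q : ((w.under (𝓞 k)).adicCompletion k)[X],
      eval₂ φ (ic w e) Q = ic w x := by
    intro x
    have hint : IsIntegral k e := Algebra.IsIntegral.isIntegral e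
    have h1 : x ∈ (IntermediateField.adjoin k {e}).toSubalgebra := by
      rw [hG.adj]
      exact Algebra.mem_top
    rw [IntermediateField.adjoin_simple_toSubalgebra_of_isAlgebraic hint.isAlgebraic,
      Algebra.adjoin_singleton_eq_range_aeval, AlgHom.mem_range] at h1
    obtain ⟨Q, hQ⟩ := h1
    refine ⟨Q.map (ic (w.under (𝓞 k))), ?_⟩
    rw [eval₂_map]
    have h2 : φ.comp (ic (w.under (𝓞 k))) = (ic w).comp (algebraMap k L) := RingHom.ext hφ
    rw [h2, ← hom_eval₂, ← aeval_def, hQ]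
  intro y
  have hd := HeightOneSpectrum.denseRange_algebraMap L w
  have h3 : closure (Set.range (algebraMap L (w.adicCompletion L))) ⊆
      {y | ∃ Q : ((w.under (𝓞 k)).adicCompletion k)[X], eval₂ φ (ic w e) Q = y} := by
    apply closure_minimal _ hcl
    rintro _ ⟨x, rfl⟩
    exact hsub x
  exact h3 (hd y)

end Pool.Agent.H86.N6W
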